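import Pool.Agent.H23.PL.Targets

/-!
Row GAP of the board pld_modules: a square root with a long gap is a polynomial.
-/

set_option autoImplicit false

open Finset Polynomial Pool.Agent.H23.PL

namespace Pool.Agent.H37.PL

theorem pf_GAP : T_GAP := by
  intro E G γ hdeg hγ hgap
  refine ⟨∑ k ∈ Finset.range (E + 1), C (f1 (γ k) / 4 ^ k) * X ^ k, ?_⟩
  set Q : ℝ[X] := ∑ k ∈ Finset.range (E + 1), C (f1 (γ k) / 4 ^ k) * X ^ k with hQ
  have hq : ∀ k, Q.coeff k = if k ≤ E then f1 (γ k) / 4 ^ k else 0 := by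
    intro k
    rw [hQ, Polynomial.finsetSum_coeff]
    simp only [Polynomial.coeff_C_mul, Polynomial.coeff_X_pow, mul_ite, mul_one, mul_zero]
    rw [Finset.sum_ite_eq]
    simp only [Finset.mem_range]
    by_cases h : k ≤ E
    · rw [if_pos (by omega), if_pos h]
    · rw [if_neg (by omega), if_neg h]
  ext n
  rw [pow_two, Polynomial.coeff_mul, Polynomial.coeff_map]
  rcases le_or_gt n (2 * E) with hn | hn
  · have h1 : ∀ k, k ≤ 2 * E → Q.coeff k = f1 (γ k) / 4 ^ k := by
      intro k hk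
      rw [hq k]
      by_cases h : k ≤ E
      · rw [if_pos h]
      · rw [if_neg h, hgap k (by omega) hk]
        simp
    have h2 : ∑ x ∈ antidiagonal n, Q.coeff x.1 * Q.coeff x.2 =
        ∑ x ∈ antidiagonal n, f1 (γ x.1 * γ x.2) / 4 ^ n := by
      refine Finset.sum_congr rfl fun x hx => ?_
      have hx' : x.1 + x.2 = n := Finset.HasAntidiagonal.mem_antidiagonal.1 hx
      rw [h1 x.1 (by omega), h1 x.2 (by omega), map_mul, ← hx', pow_add, div_mul_div_comm]
    rw [h2, ← Finset.sum_div, ← map_sum, hγ n, map_mul, map_pow]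
    have h4 : f1 (4 : ℤ√2) = 4 := by
      have := map_ofNat f1 4
      exact this
    rw [h4]
    field_simp
  · rw [Polynomial.coeff_eq_zero_of_natDegree_lt (lt_of_le_of_lt hdeg hn), map_zero]
    refine Finset.sum_eq_zero fun x hx => ?_
    have hx' : x.1 + x.2 = n := Finset.HasAntidiagonal.mem_antidiagonal.1 hx
    rw [hq, hq]
    by_cases h : x.1 ≤ E
    · rw [if_neg (show ¬ x.2 ≤ E by omega), mul_zero]
    · rw [if_neg h, zero_mul]

end Pool.Agent.H37.PL
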