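import Pool.Agent.H23.PL.Targets

/-!
Row GCF of the board pld_modules: the coefficients of the product.
-/

set_option autoImplicit false

open Finset Polynomial Pool.Agent.H23.PL

namespace Pool.Agent.H37.PL

lemma fac_coeff (P : ℤ[X]) (w : ℤ√2) (k : ℕ) :
    ((P.map (Int.castRingHom (ℤ√2))).comp (C w * X)).coeff k = (P.coeff k : ℤ√2) * w ^ k := by
  rw [Polynomial.comp_C_mul_X_coeff, Polynomial.coeff_map]
  simp

theorem pf_GCF : T_GCF := by
  intro a N P w hdeg hco h0
  refine ⟨?_, ?_, ?_⟩
  · unfold GG
    refine (Polynomial.natDegree_prod_le _ _).trans ?_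
    calc ∑ i : Fin N, ((P.map (Int.castRingHom (ℤ√2))).comp (C (w i) * X)).natDegree
        ≤ ∑ _i : Fin N, a := by
          refine Finset.sum_le_sum fun i _ => ?_
          rw [Polynomial.natDegree_le_iff_coeff_eq_zero]
          intro k hk
          rw [fac_coeff, Polynomial.coeff_eq_zero_of_natDegree_lt (lt_of_le_of_lt hdeg hk)]
          simp
      _ = N * a := by simp
  · unfold GG
    rw [Polynomial.coeff_zero_prod]
    refine Finset.prod_eq_one fun i _ => ?_
    rw [fac_coeff, h0]
    simp
  · intro f ρ hρ
    have key : ∀ s : Finset (Fin N), ∀ k,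
        |f ((∏ i ∈ s, (P.map (Int.castRingHom (ℤ√2))).comp (C (w i) * X)).coeff k)| ≤
          ((s.card * a).choose k : ℝ) * ρ ^ k := by
      intro s
      induction s using Finset.induction_on with
      | empty =>
        intro k
        rw [Finset.prod_empty, Polynomial.coeff_one]
        rcases Nat.eq_zero_or_pos k with rfl | hk
        · simp
        · rw [if_neg (by omega)]
          simp only [map_zero, abs_zero, Finset.card_empty, zero_mul]
          rw [Nat.choose_eq_zero_of_lt hk]
          simp
      | insert i s hi ih =>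
        intro k
        have hρ0 : 0 ≤ ρ := (abs_nonneg _).trans (hρ i)
        rw [Finset.prod_insert hi, Polynomial.coeff_mul, map_sum]
        refine (Finset.abs_sum_le_sum_abs _ _).trans ?_
        rw [Finset.card_insert_of_notMem hi, show (s.card + 1) * a = a + s.card * a by ring,
          Nat.add_choose_eq]
        push_cast
        rw [Finset.sum_mul]
        refine Finset.sum_le_sum fun x hx => ?_
        rw [map_mul, abs_mul]
        have hx' : x.1 + x.2 = k := Finset.HasAntidiagonal.mem_antidiagonal.1 hx
        have h1 : |f (((P.map (Int.castRingHom (ℤ√2))).comp (C (w i) * X)).coeff x.1)| ≤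
            (a.choose x.1 : ℝ) * ρ ^ x.1 := by
          rw [fac_coeff, map_mul, map_pow, abs_mul, abs_pow, map_intCast, ← Int.cast_abs]
          refine mul_le_mul ?_ (pow_le_pow_left₀ (abs_nonneg _) (hρ i) _)
            (pow_nonneg (abs_nonneg _) _) (Nat.cast_nonneg _)
          exact_mod_cast hco x.1
        calc _ ≤ ((a.choose x.1 : ℝ) * ρ ^ x.1) * (((s.card * a).choose x.2 : ℝ) * ρ ^ x.2) :=
              mul_le_mul h1 (ih x.2) (abs_nonneg _) (by positivity)
          _ = _ := by rw [← hx', pow_add]; ring
    intro k
    have := key Finset.univ k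
    rw [Finset.card_univ, Fintype.card_fin] at this
    exact this

end Pool.Agent.H37.PL
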